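import Pool.Agent.Helper77.UN.Defs

/-!
# Module UN-SL: the first piece of a diagram on a basis vector
-/

namespace Pool.Agent.Helper77.UN

open Finset
open Pool.Agent.Helper9.Kashaev (Piece Diagram)
open Pool.Agent.Helper9.FA (Item twists wfP labels)
open Pool.Agent.Helper77.ST

variable {F : Type*} [Field F]

private lemma sl_lin (P : Par F) (D : Diagram) {ι : Type*} (s : Finset ι) (c : ι → F)
    (h : ι → List ℕ → F) (u : List ℕ) :
    RT P D (fun w => ∑ j ∈ s, c j * h j w) u = ∑ j ∈ s, c j * RT P D (h j) u := by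
  have h1 : (fun w => ∑ j ∈ s, c j * h j w) = ∑ j ∈ s, c j • h j := by
    funext w
    simp [Finset.sum_apply]
  rw [h1, ← RTL_apply, map_sum, Finset.sum_apply]
  refine Finset.sum_congr rfl fun j _ => ?_
  rw [map_smul, Pi.smul_apply, smul_eq_mul, RTL_apply]

private lemma sl_zero (P : Par F) (D : Diagram) (u : List ℕ) :
    RT P D (fun _ => 0) u = 0 := by
  have h1 : (fun _ : List ℕ => (0 : F)) = 0 := rfl
  rw [h1, ← RTL_apply, map_zero]
  rfl

private lemma sl_nil (P : Par F) (E : Diagram) (f : List ℕ → F) (hf : f [] = 0) :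
    RT P (sh 1 E) f [] = 0 := by
  induction E generalizing f with
  | nil => exact hf
  | cons s E ih =>
    have e : sh 1 (s :: E) = (s.1 + 1, s.2) :: sh 1 E := rfl
    rw [e]
    simp only [RT]
    exact ih _ rfl

private lemma sl_ket_cons (x y : ℕ) (t u : List ℕ) :
    (ket (x :: t) (y :: u) : F) = if y = x then ket t u else 0 := by
  unfold ket
  by_cases h : y = x
  · by_cases h' : u = t
    · simp [h, h']
    · simp [h, h']
  · simp [h]

private lemma sl_step (P : Par F) (E : Diagram) (t : List ℕ) {ι : Type*} (s : Finset ι) (c : ι → F)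
    (h : ι → List ℕ) (H : ∀ u, RT P E (ket t) u = ∑ j ∈ s, c j * ket (h j) u) (x : ℕ)
    (u : List ℕ) : RT P (sh 1 E) (ket (x :: t)) u = ∑ j ∈ s, c j * ket (x :: h j) u := by
  rcases u with _ | ⟨y, u⟩
  · rw [sl_nil P E _ (by simp [ket])]
    symm
    refine Finset.sum_eq_zero fun j _ => ?_
    simp [ket]
  · rw [RT_left]
    by_cases hy : y = x
    · have e : (fun w => (ket (x :: t) (y :: w) : F)) = ket t := by
        funext w
        rw [sl_ket_cons, if_pos hy]
      rw [e, H]
      refine Finset.sum_congr rfl fun j _ => ?_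
      rw [sl_ket_cons, if_pos hy]
    · have e : (fun w => (ket (x :: t) (y :: w) : F)) = fun _ => 0 := by
        funext w
        rw [sl_ket_cons, if_neg hy]
      rw [e, sl_zero]
      symm
      refine Finset.sum_eq_zero fun j _ => ?_
      rw [sl_ket_cons, if_neg hy, mul_zero]

private lemma sl_sh (k : ℕ) (E : Diagram) : sh (k + 1) E = sh 1 (sh k E) := by
  unfold sh
  rw [List.map_map]
  refine List.map_congr_left fun s _ => ?_
  simp [add_assoc]

private lemma sl_sh0 (E : Diagram) : sh 0 E = E := by
  unfold sh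
  simp

private lemma sl_pre (P : Par F) (E : Diagram) (t : List ℕ) {ι : Type*} (s : Finset ι) (c : ι → F)
    (h : ι → List ℕ) (H : ∀ u, RT P E (ket t) u = ∑ j ∈ s, c j * ket (h j) u) (w : List ℕ) :
    ∀ u, RT P (sh w.length E) (ket (w ++ t)) u = ∑ j ∈ s, c j * ket (w ++ h j) u := by
  induction w with
  | nil =>
    intro u
    rw [List.length_nil, sl_sh0]
    exact H u
  | cons x w ih =>
    intro u
    rw [List.length_cons, sl_sh]
    exact sl_step P (sh w.length E) (w ++ t) s c (fun j => w ++ h j) ih x u

private lemma sl_main (P : Par F) (E D : Diagram) (t : List ℕ) {ι : Type*} (s : Finset ι)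
    (c : ι → F) (h : ι → List ℕ) (H : ∀ u, RT P E (ket t) u = ∑ j ∈ s, c j * ket (h j) u)
    (w u : List ℕ) : RT P (sh w.length E ++ D) (ket (w ++ t)) u =
      ∑ j ∈ s, c j * RT P D (ket (w ++ h j)) u := by
  rw [RT_append]
  have e : RT P (sh w.length E) (ket (w ++ t)) = fun u => ∑ j ∈ s, c j * ket (w ++ h j) u :=
    funext (sl_pre P E t s c h H w)
  rw [e, sl_lin]

theorem X_cup (P : Par F) (D : Diagram) (w1 w2 : List ℕ) (u : List ℕ) :
    RT P ((w1.length, .cup) :: D) (ket (w1 ++ w2)) u =
      ∑ i ∈ range P.N, cupC P i * RT P D (ket (w1 ++ i :: (P.N - 1 - i) :: w2)) u := by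
  have H : ∀ u, RT P [(0, .cup)] (ket w2) u =
      ∑ i ∈ range P.N, cupC P i * ket (i :: (P.N - 1 - i) :: w2) u := by
    intro u
    change piece P .cup (ket w2) u = _
    rcases u with _ | ⟨a, _ | ⟨b, w⟩⟩
    · simp [piece, ket]
    · simp [piece, ket]
    · simp only [piece]
      by_cases h : a + b + 1 = P.N
      · rw [if_pos h, Finset.sum_eq_single a]
        · rw [sl_ket_cons, if_pos rfl, sl_ket_cons, if_pos (by omega)]
        · intro i _ hi
          rw [sl_ket_cons, if_neg (fun h' => hi h'.symm), mul_zero]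
        · intro h'
          exact absurd (mem_range.2 (by omega)) h'
      · rw [if_neg h]
        symm
        refine Finset.sum_eq_zero fun i hi => ?_
        rw [mem_range] at hi
        rw [sl_ket_cons]
        by_cases h1 : a = i
        · rw [if_pos h1, sl_ket_cons, if_neg (by omega), mul_zero]
        · rw [if_neg h1, mul_zero]
  have h := sl_main P [(0, .cup)] D w2 (range P.N) (cupC P) (fun i => i :: (P.N - 1 - i) :: w2) H
    w1 u
  have e : sh w1.length [(0, Piece.cup)] ++ D = (w1.length, .cup) :: D := by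
    simp [sh]
  rw [e] at h
  exact h

theorem X_cap (P : Par F) (D : Diagram) (w1 w2 : List ℕ) {i j : ℕ} (hi : i < P.N) (hj : j < P.N)
    (u : List ℕ) :
    RT P ((w1.length, .cap) :: D) (ket (w1 ++ i :: j :: w2)) u =
      if i + j + 1 = P.N then capC P i * RT P D (ket (w1 ++ w2)) u else 0 := by
  have H : ∀ u, RT P [(0, .cap)] (ket (i :: j :: w2)) u =
      ∑ k ∈ range 1, (if i + j + 1 = P.N then capC P i else 0) * ket w2 u := by
    intro u
    change piece P .cap (ket (i :: j :: w2)) u = _
    rw [Finset.sum_range_one]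
    simp only [piece]
    rw [Finset.sum_eq_single i]
    · rw [sl_ket_cons, if_pos rfl, sl_ket_cons]
      by_cases h : i + j + 1 = P.N
      · rw [if_pos h, if_pos (by omega)]
      · rw [if_neg h, if_neg (by omega), mul_zero, zero_mul]
    · intro a _ ha
      rw [sl_ket_cons, if_neg ha, mul_zero]
    · intro h'
      exact absurd (mem_range.2 hi) h'
  have h := sl_main P [(0, .cap)] D (i :: j :: w2) (range 1)
    (fun _ => if i + j + 1 = P.N then capC P i else 0) (fun _ => w2) H w1 u
  have e : sh w1.length [(0, Piece.cap)] ++ D = (w1.length, .cap) :: D := by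
    simp [sh]
  rw [e, Finset.sum_range_one] at h
  rw [h]
  split_ifs with h1
  · rfl
  · rw [zero_mul]

/-! ### crossings -/

/-- `f` is `g` tensored with the basis vector of `w2`. -/
private def Fac (w2 : List ℕ) (f g : List ℕ → F) : Prop :=
  (∀ a b w, f (a :: b :: w) = g [a, b] * if w = w2 then 1 else 0) ∧ f [] = 0 ∧ ∀ a, f [a] = 0

private lemma fac_piece {P : Par F} {w2 : List ℕ} {f g : List ℕ → F} (h : Fac w2 f g) {p : Piece}
    (hp : p = .pos ∨ p = .neg) : Fac w2 (piece P p f) (piece P p g) := by
  rcases hp with rfl | rfl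
  · refine ⟨fun a b w => ?_, by simp [piece], fun a => by simp [piece]⟩
    simp only [piece]
    rw [Finset.sum_mul]
    refine Finset.sum_congr rfl fun m _ => ?_
    rw [h.1]
    split_ifs <;> ring
  · refine ⟨fun a b w => ?_, by simp [piece], fun a => by simp [piece]⟩
    simp only [piece]
    rw [Finset.sum_mul]
    refine Finset.sum_congr rfl fun m _ => ?_
    rw [h.1]
    split_ifs <;> ring

/-- `g` is supported on words with the sum `s` -/
private def Csv (s : ℕ) (g : List ℕ → F) : Prop := ∀ a b, a + b ≠ s → g [a, b] = 0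

private lemma csv_piece {P : Par F} {s : ℕ} {g : List ℕ → F} (h : Csv s g) {p : Piece}
    (hp : p = .pos ∨ p = .neg) : Csv s (piece P p g) := by
  rcases hp with rfl | rfl
  · intro a b hab
    simp only [piece]
    refine Finset.sum_eq_zero fun m _ => ?_
    split_ifs with h1
    · rw [h _ _ (by omega), mul_zero]
    · rfl
  · intro a b hab
    simp only [piece]
    refine Finset.sum_eq_zero fun m _ => ?_
    split_ifs with h1
    · rw [h _ _ (by omega), mul_zero]
    · rfl

private lemma fac_tw {P : Par F} {w2 : List ℕ} {p : Piece} (hp : p = .pos ∨ p = .neg) (n : ℕ) :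
    ∀ {f g : List ℕ → F}, Fac w2 f g →
      Fac w2 (RT P (List.replicate n (0, p)) f) (RT P (List.replicate n (0, p)) g) := by
  induction n with
  | zero => exact fun h => h
  | succ n ih =>
    intro f g h
    rw [List.replicate_succ]
    exact ih (fac_piece h hp)

private lemma csv_tw {P : Par F} {s : ℕ} {p : Piece} (hp : p = .pos ∨ p = .neg) (n : ℕ) :
    ∀ {g : List ℕ → F}, Csv s g → Csv s (RT P (List.replicate n (0, p)) g) := by
  induction n with
  | zero => exact fun h => h
  | succ n ih =>
    intro g h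
    rw [List.replicate_succ]
    exact ih (csv_piece h hp)

private lemma tw_piece (x : ℤ) : (if 0 < x then Piece.pos else Piece.neg) = .pos ∨
    (if 0 < x then Piece.pos else Piece.neg) = .neg := by
  split_ifs
  · exact Or.inl rfl
  · exact Or.inr rfl

theorem X_tw (P : Par F) (D : Diagram) (w1 w2 : List ℕ) {i' j' : ℕ} (hi : i' < P.N) (hj : j' < P.N)
    (x : ℤ) (u : List ℕ) :
    RT P (twists w1.length x ++ D) (ket (w1 ++ i' :: j' :: w2)) u =
      ∑ i ∈ range (i' + j' + 1), tmx P x i (i' + j' - i) i' *
        RT P D (ket (w1 ++ i :: (i' + j' - i) :: w2)) u := by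
  have hF : Fac w2 (ket (i' :: j' :: w2) : List ℕ → F) (ket [i', j']) := by
    refine ⟨fun a b w => ?_, by simp [ket], fun a => by simp [ket]⟩
    rw [sl_ket_cons, sl_ket_cons, sl_ket_cons, sl_ket_cons]
    by_cases h1 : a = i'
    · by_cases h2 : b = j'
      · simp [h1, h2, ket]
      · simp [h2]
    · simp [h1]
  have hC : Csv (i' + j') (ket [i', j'] : List ℕ → F) := by
    intro a b hab
    rw [sl_ket_cons, sl_ket_cons]
    by_cases h1 : a = i'
    · by_cases h2 : b = j'
      · exact absurd (by rw [h1, h2]) hab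
      · simp [h2]
    · simp [h1]
  have hF' : Fac w2 (RT P (twists 0 x) (ket (i' :: j' :: w2))) (RT P (twists 0 x) (ket [i', j'])) :=
    fac_tw (tw_piece x) _ hF
  have hC' : Csv (i' + j') (RT P (twists 0 x) (ket [i', j'])) := csv_tw (tw_piece x) _ hC
  have H : ∀ u, RT P (twists 0 x) (ket (i' :: j' :: w2)) u =
      ∑ i ∈ range (i' + j' + 1), tmx P x i (i' + j' - i) i' * ket (i :: (i' + j' - i) :: w2) u := by
    intro u
    rcases u with _ | ⟨a, _ | ⟨b, w⟩⟩
    · rw [hF'.2.1]
      simp [ket]
    · rw [hF'.2.2]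
      simp [ket]
    · rw [hF'.1]
      by_cases h : a + b = i' + j'
      · rw [Finset.sum_eq_single a]
        · have e1 : i' + j' - a = b := by omega
          have e2 : a + b - i' = j' := by omega
          have e3 : (ket (a :: b :: w2) (a :: b :: w) : F) = if w = w2 then 1 else 0 := by
            unfold ket
            by_cases h3 : w = w2
            · simp [h3]
            · simp [h3]
          rw [e1, e3]
          unfold tmx
          rw [e2]
        · intro i _ h1
          rw [sl_ket_cons, if_neg (fun h2 => h1 h2.symm), mul_zero]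
        · intro h1
          exact absurd (mem_range.2 (by omega)) h1
      · rw [hC' a b h, zero_mul]
        symm
        refine Finset.sum_eq_zero fun i hi => ?_
        rw [mem_range] at hi
        rw [sl_ket_cons]
        by_cases h1 : a = i
        · rw [if_pos h1, sl_ket_cons, if_neg (by omega), mul_zero]
        · rw [if_neg h1, mul_zero]
  have h := sl_main P (twists 0 x) D (i' :: j' :: w2) (range (i' + j' + 1))
    (fun i => tmx P x i (i' + j' - i) i') (fun i => i :: (i' + j' - i) :: w2) H w1 u
  have e : sh w1.length (twists 0 x) = twists w1.length x := by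
    simp [sh, twists]
  rw [e] at h
  exact h

theorem tmx_zero (P : Par F) (x : ℤ) {i j i' : ℕ} (h : P.N ≤ i ∨ P.N ≤ j)
    (hi : i' < P.N) (hj : i + j - i' < P.N) (hs : i' ≤ i + j) : tmx P x i j i' = 0 := by
  have hS : Sup P 2 (ket [i', i + j - i'] : List ℕ → F) := by
    intro w hw
    unfold ket
    rw [if_neg]
    rintro rfl
    refine hw ⟨rfl, ?_⟩
    intro y hy
    rcases List.mem_cons.1 hy with rfl | hy
    · exact hi
    · rw [List.mem_singleton] at hy
      rw [hy]; exact hj
  have hwf : wf 2 (twists 0 x) 2 := by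
    unfold twists
    exact h96_wf_replicate (le_refl 2) (tw_piece x) _
  have h1 := RT_Sup (P := P) hwf hS
  unfold tmx
  apply h1
  rintro ⟨-, h2⟩
  have h3 := h2 i (by simp)
  have h4 := h2 j (by simp)
  omega

end Pool.Agent.Helper77.UN
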